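import Mathlib.Tactic.Linarith.Frontend
import Mathlib.Data.Nat.SuccPred
import Mathlib.Algebra.Notation.Lemmas
import Mathlib.Data.Real.Basic
import Mathlib.Combinatorics.Hall.Basic
import Mathlib.Analysis.Convex.Independent
import Mathlib.Data.Fin.Tuple.Sort

-- ======== part 0: formerly Pool.Agent.MP_3b4e7c_co.Arcs
section MrgPart0

/-!
Cyclically ordered points `V` (successor `f`), one extra point `none`, labels whose traces on `V`
are arcs.  Under the double Hall condition the extra point can be inserted into some edge of the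
cycle so that the edges of the new cycle have distinct representing labels.
-/

namespace Pool.Agent.MP_3b4e7c_co.Arcs

open Finset Relation

/-- The data: a cyclic successor on `V`, incidences `M` of labels with `Option V`. -/
structure Setup (V L : Type) [Fintype V] [Fintype L] where
  f : V → V
  finj : Function.Injective f
  conn : ∀ x y, ∃ m : ℕ, f^[m] x = y
  M : L → Option V → Prop
  arc : ∀ j x y, M j (some x) → M j (some y) →
    ReflTransGen (fun u w => M j (some u) ∧ M j (some w) ∧ w = f u) x y ∨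
    ReflTransGen (fun u w => M j (some u) ∧ M j (some w) ∧ w = f u) y x
  card : Fintype.card L = Fintype.card V + 1
  hall : ∀ (T : Finset L) (X : Finset (Option V)), 2 ≤ X.card →
    (∀ j ∈ T, ∀ x ∈ X, ∀ y ∈ X, M j x → M j y → x = y) →
    T.card + X.card ≤ Fintype.card V + 1

variable {V L : Type} [Fintype V] [Fintype L] [DecidableEq V] [DecidableEq L] (S : Setup V L)

namespace Setup

open Classical in
/-- covered edges -/
noncomputable def cov (T : Finset L) : Finset V :=
  univ.filter fun i => ∃ j ∈ T, S.M j (some i) ∧ S.M j (some (S.f i))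

/-- `x` is joined to the extra point by a label of `T` -/
def adj (T : Finset L) (x : V) : Prop := ∃ j ∈ T, S.M j none ∧ S.M j (some x)

/-- all labels of `T` have their trace inside `B` -/
def inside (T : Finset L) (B : Finset V) : Prop := ∀ j ∈ T, ∀ y, S.M j (some y) → y ∈ B

omit [DecidableEq V] [DecidableEq L] in
lemma mem_cov {T : Finset L} {i : V} :
    i ∈ S.cov T ↔ ∃ j ∈ T, S.M j (some i) ∧ S.M j (some (S.f i)) := by
  simp [cov]

omit [DecidableEq V] [DecidableEq L] in
lemma cov_mono {T U : Finset L} (h : T ⊆ U) : S.cov T ⊆ S.cov U := by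
  intro i hi
  rw [mem_cov] at hi ⊢
  obtain ⟨j, hj, h1⟩ := hi
  exact ⟨j, h hj, h1⟩

omit [DecidableEq V] [DecidableEq L] in
lemma adj_mono {T U : Finset L} (h : T ⊆ U) {x : V} (hx : S.adj T x) : S.adj U x := by
  obtain ⟨j, hj, h1⟩ := hx
  exact ⟨j, h hj, h1⟩

lemma submod (T U : Finset L) :
    (S.cov (T ∪ U)).card + (S.cov (T ∩ U)).card ≤ (S.cov T).card + (S.cov U).card := by
  have h1 : S.cov (T ∪ U) ⊆ S.cov T ∪ S.cov U := by
    intro i hi
    rw [mem_cov] at hi
    obtain ⟨j, hj, h1⟩ := hi
    rcases mem_union.1 hj with h | h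
    · exact mem_union_left _ ((S.mem_cov).2 ⟨j, h, h1⟩)
    · exact mem_union_right _ ((S.mem_cov).2 ⟨j, h, h1⟩)
  have h2 : S.cov (T ∩ U) ⊆ S.cov T ∩ S.cov U :=
    subset_inter (S.cov_mono inter_subset_left) (S.cov_mono inter_subset_right)
  have := card_le_card h1
  have := card_le_card h2
  have := card_union_add_card_inter (S.cov T) (S.cov U)
  omega

omit [DecidableEq L] in
lemma factB {T : Finset L} {B : Finset V} {x : V} (hin : S.inside T B) (hx : x ∈ B)
    (hna : ¬ S.adj T x) : T.card + 1 ≤ B.card := by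
  have hxc : x ∉ Bᶜ := by simpa using hx
  have hc : (insertNone (insert x Bᶜ)).card = Bᶜ.card + 2 := by
    rw [card_insertNone, card_insert_of_notMem hxc]
  have hcc := card_add_card_compl B
  have key : ∀ j ∈ T, ∀ y, y ∈ insert x Bᶜ → S.M j (some y) → y = x := by
    intro j hj y hy hm
    rcases mem_insert.1 hy with h | h
    · exact h
    · exact absurd (hin j hj y hm) (by simpa using h)
  have := S.hall T (insertNone (insert x Bᶜ)) (by omega) (by
    intro j hj u hu w hw mu mw
    cases u with
    | none =>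
      cases w with
      | none => rfl
      | some w =>
        have := key j hj w (by simpa using hw) mw
        subst this
        exact absurd ⟨j, hj, mu, mw⟩ hna
    | some u =>
      cases w with
      | none =>
        have := key j hj u (by simpa using hu) mu
        subst this
        exact absurd ⟨j, hj, mw, mu⟩ hna
      | some w =>
        rw [key j hj u (by simpa using hu) mu, key j hj w (by simpa using hw) mw])
  omega

omit [DecidableEq L] in
lemma nonadj_card {T : Finset L} {x : V} (hna : ¬ S.adj T x) :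
    T.card + 1 ≤ Fintype.card V := by
  have := S.factB (T := T) (B := univ) (x := x) (fun _ _ _ _ => mem_univ _) (mem_univ _) hna
  simpa using this

omit [DecidableEq L] in
lemma unc_card {T : Finset L} {i : V} (hi : i ∉ S.cov T) :
    T.card + 1 ≤ Fintype.card V := by
  by_cases h : S.f i = i
  · apply S.nonadj_card (x := i)
    rintro ⟨j, hj, -, h2⟩
    exact hi ((S.mem_cov).2 ⟨j, hj, h2, by rw [h]; exact h2⟩)
  · have hne : (some i : Option V) ≠ some (S.f i) := by
      intro e
      exact h (Option.some.inj e).symm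
    have hc : ({some i, some (S.f i)} : Finset (Option V)).card = 2 := card_pair hne
    have := S.hall T {some i, some (S.f i)} (by omega) (by
      intro j hj u hu w hw mu mw
      simp only [mem_insert, mem_singleton] at hu hw
      rcases hu with rfl | rfl <;> rcases hw with rfl | rfl
      · rfl
      · exact absurd ((S.mem_cov).2 ⟨j, hj, mu, mw⟩) hi
      · exact absurd ((S.mem_cov).2 ⟨j, hj, mw, mu⟩) hi
      · rfl)
    omega

omit [DecidableEq L] in
lemma factA (T : Finset L) : T.card ≤ 1 + (S.cov T).card := by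
  have hcc := card_add_card_compl (S.cov T)
  by_cases h2 : 2 ≤ (S.cov T)ᶜ.card
  · have hinj : Function.Injective (fun i : V => (some (S.f i) : Option V)) := by
      intro a b e
      exact S.finj (Option.some.inj e)
    have hc : ((S.cov T)ᶜ.image fun i : V => (some (S.f i) : Option V)).card = (S.cov T)ᶜ.card :=
      card_image_of_injective _ hinj
    have key : ∀ j ∈ T, ∀ a c : V, c ∉ S.cov T →
        ReflTransGen (fun u w => S.M j (some u) ∧ S.M j (some w) ∧ w = S.f u) a (S.f c) →
        a = S.f c := by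
      intro j hj a c hc hp
      rcases hp.cases_tail with h | ⟨u, -, m1, m2, e⟩
      · exact h.symm
      · have : u = c := S.finj e.symm
        subst this
        exact absurd ((S.mem_cov).2 ⟨j, hj, m1, m2⟩) hc
    have := S.hall T ((S.cov T)ᶜ.image fun i : V => (some (S.f i) : Option V)) (by omega) (by
      intro j hj u hu w hw mu mw
      obtain ⟨a, ha, rfl⟩ := mem_image.1 hu
      obtain ⟨c, hc, rfl⟩ := mem_image.1 hw
      rcases S.arc j _ _ mu mw with h | h
      · rw [key j hj _ c (by simpa using hc) h]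
      · rw [key j hj _ a (by simpa using ha) h])
    omega
  · by_cases h0 : (S.cov T)ᶜ.card = 0
    · have := card_le_univ T
      have := S.card
      omega
    · obtain ⟨i, hi⟩ : ((S.cov T)ᶜ).Nonempty := card_pos.1 (by omega)
      have := S.unc_card (T := T) (i := i) (by simpa using hi)
      omega

omit [DecidableEq V] [DecidableEq L] in
lemma boundary {B : Finset V} {x y : V} (hx : x ∈ B) (hy : y ∉ B) :
    ∃ d ∈ B, S.f d ∉ B := by
  by_contra hcon
  push Not at hcon
  obtain ⟨m, hm⟩ := S.conn x y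
  have : ∀ k : ℕ, S.f^[k] x ∈ B := by
    intro k
    induction k with
    | zero => simpa using hx
    | succ k ih => rw [Function.iterate_succ_apply']; exact hcon _ ih
  exact hy (hm ▸ this m)

omit [DecidableEq L] in
lemma block (T : Finset L) (x0 w : V) (hw : w ∉ S.cov T) :
    ∃ (B : Finset V) (T1 T2 : Finset L), x0 ∈ B ∧ (x0 ∈ S.cov T → S.f x0 ∈ B) ∧
      T1 ⊆ T ∧ T2 ⊆ T ∧ T1.card + T2.card = T.card ∧
      (S.cov T1).card + (S.cov T2).card = (S.cov T).card ∧ (S.cov T1).card + 1 = B.card ∧
      S.inside T1 B ∧ ∀ j ∈ T, ∀ x ∈ B, S.M j (some x) → j ∈ T1 ∧ j ∉ T2 := by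
  classical
  have hex : ∀ m : ℕ, ∀ x, S.f^[m] x = w → ∃ u, u ∉ S.cov T ∧
      ReflTransGen (fun a c => a ∈ S.cov T ∧ c = S.f a) x u := by
    intro m
    induction m with
    | zero => intro x hx; exact ⟨x, by simpa [show x = w from hx] using hw, ReflTransGen.refl⟩
    | succ m ih =>
      intro x hx
      by_cases h : x ∈ S.cov T
      · obtain ⟨u, hu, hp⟩ := ih (S.f x) (by rw [← hx, Function.iterate_succ_apply])
        exact ⟨u, hu, ReflTransGen.head ⟨h, rfl⟩ hp⟩
      · exact ⟨x, h, ReflTransGen.refl⟩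
  obtain ⟨m, hm⟩ := S.conn x0 w
  obtain ⟨u, hu, hp⟩ := hex m x0 hm
  set B : Finset V := univ.filter fun y =>
    ReflTransGen (fun a c => a ∈ S.cov T ∧ c = S.f a) y u with hB
  have memB : ∀ y, y ∈ B ↔ ReflTransGen (fun a c => a ∈ S.cov T ∧ c = S.f a) y u := by
    intro y; simp [hB]
  have B1 : ∀ i ∈ S.cov T, i ∈ B ↔ S.f i ∈ B := by
    intro i hi
    rw [memB, memB]
    constructor
    · intro h
      rcases h.cases_head with h | ⟨c, ⟨-, e⟩, h⟩
      · exact absurd (h ▸ hi) hu
      · exact e ▸ h
    · intro h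
      exact ReflTransGen.head ⟨hi, rfl⟩ h
  have B2 : B \ S.cov T = {u} := by
    ext y
    simp only [mem_sdiff, mem_singleton, memB]
    constructor
    · rintro ⟨h, hy⟩
      rcases h.cases_head with h | ⟨c, ⟨h1, -⟩, -⟩
      · exact h
      · exact absurd h1 hy
    · rintro rfl
      exact ⟨ReflTransGen.refl, hu⟩
  have B3 : ∀ j ∈ T, ∀ x y, S.M j (some x) → S.M j (some y) → x ∈ B → y ∈ B := by
    intro j hj x y mx my hx
    have path : ∀ a c, ReflTransGen
        (fun u w => S.M j (some u) ∧ S.M j (some w) ∧ w = S.f u) a c → (a ∈ B ↔ c ∈ B) := by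
      intro a c h
      induction h with
      | refl => rfl
      | tail _ hbc ih =>
        obtain ⟨m1, m2, e⟩ := hbc
        subst e
        rw [ih]
        exact B1 _ ((S.mem_cov).2 ⟨j, hj, m1, m2⟩)
    rcases S.arc j x y mx my with h | h
    · exact (path _ _ h).1 hx
    · exact (path _ _ h).2 hx
  set T1 : Finset L := T.filter fun j => ∃ x ∈ B, S.M j (some x) with hT1
  set T2 : Finset L := T.filter fun j => ¬ ∃ x ∈ B, S.M j (some x) with hT2
  have c1 : S.cov T1 = B ∩ S.cov T := by
    ext i
    rw [mem_inter, mem_cov, mem_cov]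
    constructor
    · rintro ⟨j, hj, m1, m2⟩
      obtain ⟨hj1, x, hx, mx⟩ := mem_filter.1 hj
      exact ⟨B3 j hj1 x i mx m1 hx, j, hj1, m1, m2⟩
    · rintro ⟨hi, j, hj, m1, m2⟩
      exact ⟨j, mem_filter.2 ⟨hj, i, hi, m1⟩, m1, m2⟩
  have c2 : S.cov T2 = S.cov T \ B := by
    ext i
    rw [mem_sdiff, mem_cov, mem_cov]
    constructor
    · rintro ⟨j, hj, m1, m2⟩
      obtain ⟨hj1, hno⟩ := mem_filter.1 hj
      exact ⟨⟨j, hj1, m1, m2⟩, fun hi => hno ⟨i, hi, m1⟩⟩
    · rintro ⟨⟨j, hj, m1, m2⟩, hi⟩
      refine ⟨j, mem_filter.2 ⟨hj, ?_⟩, m1, m2⟩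
      rintro ⟨x, hx, mx⟩
      exact hi (B3 j hj x i mx m1 hx)
  refine ⟨B, T1, T2, (memB _).2 hp, fun h => (B1 _ h).1 ((memB _).2 hp), filter_subset _ _,
    filter_subset _ _, card_filter_add_card_filter_not _, ?_, ?_, ?_, ?_⟩
  · rw [c1, c2, inter_comm]
    exact card_inter_add_card_sdiff _ _
  · rw [c1]
    have := card_inter_add_card_sdiff B (S.cov T)
    rw [B2, card_singleton] at this
    exact this
  · intro j hj y my
    obtain ⟨hj1, x, hx, mx⟩ := mem_filter.1 hj
    exact B3 j hj1 x y mx my hx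
  · intro j hj x hx mx
    refine ⟨mem_filter.2 ⟨hj, x, hx, mx⟩, fun h => (mem_filter.1 h).2 ⟨x, hx, mx⟩⟩

open Classical in
/-- Hall's condition fails for the cycle with the extra point inserted in edge `i`. -/
def bad (i : V) : Prop := ∃ T : Finset L,
  (S.cov T).card + 1 + (if S.adj T i then 1 else 0) + (if S.adj T (S.f i) then 1 else 0) ≤
    T.card + (if i ∈ S.cov T then 1 else 0)

lemma phase1 (hbad : ∀ i, S.bad i) (T : Finset L) (hT : T.card ≤ Fintype.card V) :
    T.card ≤ (S.cov T).card := by
  classical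
  by_contra hcon
  have hA := S.factA T
  obtain ⟨T0, hT0, hmin⟩ := exists_min_image
    (univ.filter fun U : Finset L => U.card = 1 + (S.cov U).card) Finset.card
    ⟨T, mem_filter.2 ⟨mem_univ _, by omega⟩⟩
  have t0 : T0.card = 1 + (S.cov T0).card := (mem_filter.1 hT0).2
  have hmin' : ∀ U : Finset L, U.card = 1 + (S.cov U).card → T0.card ≤ U.card :=
    fun U hU => hmin U (mem_filter.2 ⟨mem_univ _, hU⟩)
  have hle : T0.card ≤ Fintype.card V := le_trans (hmin' T (by omega)) hT
  have sup : ∀ U : Finset L, U.card = 1 + (S.cov U).card → T0 ⊆ U := by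
    intro U hU
    have h1 := S.submod U T0
    have h2 := card_union_add_card_inter U T0
    have h3 := S.factA (U ∪ T0)
    have h4 := S.factA (U ∩ T0)
    have h5 := hmin' (U ∩ T0) (by omega)
    have : U ∩ T0 = T0 := eq_of_subset_of_card_le inter_subset_right h5
    rw [← this]
    exact inter_subset_left
  obtain ⟨w, hw⟩ : ∃ w, w ∉ S.cov T0 := by
    by_contra h
    push Not at h
    have : S.cov T0 = univ := eq_univ_of_forall h
    rw [this, card_univ] at t0
    omega
  have hwc := S.unc_card hw
  -- a label of `T0` with a point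
  obtain ⟨j0, hj0, x0, m0⟩ : ∃ j ∈ T0, ∃ x, S.M j (some x) := by
    by_contra h
    push Not at h
    have := S.factB (T := T0) (B := {w}) (x := w) (fun j hj y my => absurd my (h j hj y))
      (mem_singleton_self _) (fun ⟨j, hj, _, m⟩ => h j hj w m)
    rw [card_singleton] at this
    omega
  obtain ⟨B0, T1, T2, hx0, -, s1, s2, c1, c2, c3, hin, hsep⟩ := S.block T0 x0 w hw
  have hT1 : T1 = T0 := by
    have a1 := S.factA T1
    have a2 := S.factA T2
    have n2 : T2.card ≠ 1 + (S.cov T2).card := fun h => (hsep j0 hj0 x0 hx0 m0).2 (sup T2 h hj0)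
    exact Subset.antisymm s1 (sup T1 (by omega))
  rw [hT1] at hin c3
  have alladj : ∀ x ∈ B0, S.adj T0 x := by
    intro x hx
    by_contra hna
    have := S.factB hin hx hna
    omega
  obtain ⟨y, hy⟩ : ∃ y, y ∉ B0 := by
    by_contra h
    push Not at h
    have : B0 = univ := eq_univ_of_forall h
    rw [this, card_univ] at c3
    omega
  obtain ⟨d, hd, hd'⟩ := S.boundary hx0 hy
  obtain ⟨U, tU, cU, nU⟩ : ∃ U : Finset L, U.card = 1 + (S.cov U).card ∧ d ∈ S.cov U ∧
      ¬ S.adj U (S.f d) := by
    obtain ⟨W, hW⟩ := hbad d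
    have aW := S.factA W
    by_cases tW : W.card = 1 + (S.cov W).card
    · have ad : S.adj W d := S.adj_mono (sup W tW) (alladj d hd)
      rw [if_pos ad] at hW
      refine ⟨W, tW, ?_, ?_⟩
      · by_contra h
        rw [if_neg h] at hW
        omega
      · intro h
        rw [if_pos h] at hW
        split_ifs at hW <;> omega
    · have hc : d ∈ S.cov W := by
        by_contra h
        rw [if_neg h] at hW
        omega
      rw [if_pos hc] at hW
      have n1 : ¬ S.adj W d := by
        intro h
        rw [if_pos h] at hW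
        omega
      have n2 : ¬ S.adj W (S.f d) := by
        intro h
        rw [if_pos h] at hW
        omega
      have h1 := S.submod W T0
      have h2 := card_union_add_card_inter W T0
      have h3 := S.factA (W ∪ T0)
      have h4 := S.factA (W ∩ T0)
      have h5 : (W ∩ T0).card ≠ 1 + (S.cov (W ∩ T0)).card := fun h =>
        n1 (S.adj_mono ((sup _ h).trans inter_subset_left) (alladj d hd))
      refine ⟨W ∪ T0, by omega, S.cov_mono subset_union_left hc, ?_⟩
      rintro ⟨j, hj, m1, m2⟩
      rcases mem_union.1 hj with h | h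
      · exact n2 ⟨j, h, m1, m2⟩
      · exact hd' (hin j h _ m2)
  have hUc := S.nonadj_card nU
  obtain ⟨w', hw'⟩ : ∃ w, w ∉ S.cov U := by
    by_contra h
    push Not at h
    have : S.cov U = univ := eq_univ_of_forall h
    rw [this, card_univ] at tU
    omega
  obtain ⟨B, U1, U2, hdB, hfd, r1, r2, e1, e2, e3, hinU, hsepU⟩ := S.block U d w' hw'
  have f1 := S.factB hinU (hfd cU) (fun h => nU (S.adj_mono r1 h))
  have a2 := S.factA U2
  obtain ⟨j, hj, -, mj⟩ := alladj d hd
  exact (hsepU j (sup U tU hj) d hdB mj).2 (sup U2 (by omega) hj)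

lemma witness (hbad : ∀ i, S.bad i) (i : V) :
    ∃ (T : Finset L) (B : Finset V), S.inside T B ∧ i ∈ B ∧ S.f i ∈ B ∧ ¬ S.adj T i ∧
      ¬ S.adj T (S.f i) ∧ i ∈ S.cov T ∧ (S.cov T).card ≤ T.card ∧ B.card ≤ T.card + 1 := by
  classical
  obtain ⟨W, hW⟩ := hbad i
  have aW := S.factA W
  have hWc : W.card ≤ Fintype.card V := by
    by_cases h : S.adj W i
    · by_cases h' : S.adj W (S.f i)
      · rw [if_pos h, if_pos h'] at hW
        split_ifs at hW <;> omega
      · have := S.nonadj_card h'
        omega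
    · have := S.nonadj_card h
      omega
  have p := S.phase1 hbad W hWc
  have hc : i ∈ S.cov W := by
    by_contra h
    rw [if_neg h] at hW
    omega
  rw [if_pos hc] at hW
  have n1 : ¬ S.adj W i := by
    intro h
    rw [if_pos h] at hW
    omega
  have n2 : ¬ S.adj W (S.f i) := by
    intro h
    rw [if_pos h] at hW
    omega
  have hUc := S.nonadj_card n1
  obtain ⟨w, hw⟩ : ∃ w, w ∉ S.cov W := by
    by_contra h
    push Not at h
    have : S.cov W = univ := eq_univ_of_forall h
    rw [this, card_univ] at hW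
    omega
  obtain ⟨B, U1, U2, hdB, hfd, r1, r2, e1, e2, e3, hinU, hsepU⟩ := S.block W i w hw
  have p2 := S.phase1 hbad U2 ((card_le_card r2).trans hWc)
  refine ⟨U1, B, hinU, hdB, hfd hc, fun h => n1 (S.adj_mono r1 h),
    fun h => n2 (S.adj_mono r1 h), ?_, by omega, by omega⟩
  obtain ⟨j, hj, m1, m2⟩ := (S.mem_cov).1 hc
  exact (S.mem_cov).2 ⟨j, (hsepU j hj i hdB m1).1, m1, m2⟩

theorem exists_good [Nonempty V] : ∃ i, ¬ S.bad i := by
  classical
  by_contra hcon
  push Not at hcon
  obtain ⟨c⟩ := ‹Nonempty V›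
  have hc0 : (S.cov ∅).card = 0 := by
    rw [card_eq_zero]
    ext i
    simp [mem_cov]
  obtain ⟨⟨T, B⟩, hTB, hmax⟩ := exists_max_image
    (univ.filter fun p : Finset L × Finset V => S.inside p.1 p.2 ∧
      (S.cov p.1).card ≤ p.1.card ∧ p.2.card ≤ p.1.card + 1 ∧ ∃ x ∈ p.2, ¬ S.adj p.1 x)
    (fun p => p.2.card)
    ⟨(∅, {c}), mem_filter.2 ⟨mem_univ _, fun j hj => absurd hj (notMem_empty j), by simp [hc0],
      by simp, c, mem_singleton_self _, fun ⟨j, hj, _⟩ => absurd hj (notMem_empty j)⟩⟩
  obtain ⟨hin, hs, hB, x, hx, nx⟩ := (mem_filter.1 hTB).2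
  simp only at hin hs hB hx nx hmax
  by_cases hall : ∀ y, y ∈ B
  · have hBu : B = univ := eq_univ_of_forall hall
    rw [hBu, card_univ] at hB
    have h1 := S.nonadj_card nx
    obtain ⟨d, hd⟩ : ∃ w, w ∉ S.cov T := by
      by_contra h
      push Not at h
      have : S.cov T = univ := eq_univ_of_forall h
      rw [this, card_univ] at hs
      omega
    obtain ⟨T', B', -, -, -, n1, -, hc, -, -⟩ := S.witness hcon d
    obtain ⟨j, hj, m1, m2⟩ := (S.mem_cov).1 hc
    have hjT : j ∉ T := fun h => hd ((S.mem_cov).2 ⟨j, h, m1, m2⟩)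
    have hq : S.M j none := by
      by_contra hq
      have : ¬ S.adj (insert j T) x := by
        rintro ⟨k, hk, k1, k2⟩
        rcases mem_insert.1 hk with rfl | h
        · exact hq k1
        · exact nx ⟨k, h, k1, k2⟩
      have h2 := S.nonadj_card this
      rw [card_insert_of_notMem hjT] at h2
      omega
    exact n1 ⟨j, hj, hq, m1⟩
  · push Not at hall
    obtain ⟨y, hy⟩ := hall
    obtain ⟨d, hd, hd'⟩ := S.boundary hx hy
    obtain ⟨T', B', hin', d1, d2, n1, n2, -, hs', hB'⟩ := S.witness hcon d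
    have h1 := S.submod T T'
    have h2 := card_union_add_card_inter T T'
    have h3 := card_union_add_card_inter B B'
    have h4 : (T ∩ T').card + 1 ≤ (B ∩ B').card :=
      S.factB (x := d) (fun j hj y my => mem_inter.2
        ⟨hin j (mem_inter.1 hj).1 y my, hin' j (mem_inter.1 hj).2 y my⟩)
        (mem_inter.2 ⟨hd, d1⟩) (fun h => n1 (S.adj_mono inter_subset_right h))
    have h5 := S.phase1 hcon (T ∩ T') (by
      have := card_le_univ (B ∩ B')
      omega)
    have h6 := hmax (T ∪ T', B ∪ B') (mem_filter.2 ⟨mem_univ _, ?_, by simp only; omega,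
      by simp only; omega, S.f d, mem_union_right _ d2, ?_⟩)
    · have h7 : B ⊂ B ∪ B' := ⟨subset_union_left, fun h => hd' (h (mem_union_right _ d2))⟩
      have := card_lt_card h7
      simp only at h6
      omega
    · intro j hj y my
      rcases mem_union.1 hj with h | h
      · exact mem_union_left _ (hin j h y my)
      · exact mem_union_right _ (hin' j h y my)
    · rintro ⟨j, hj, m1, m2⟩
      rcases mem_union.1 hj with h | h
      · exact hd' (hin j h _ m2)
      · exact n2 ⟨j, h, m1, m2⟩

/-- successor on the cycle with the extra point inserted after `i` -/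
def nxt (i : V) : Option V → Option V
  | none => some (S.f i)
  | some k => if k = i then none else some (S.f k)

theorem exists_matching [Nonempty V] :
    ∃ (i : V) (g : L → Option V), Function.Bijective g ∧
      ∀ j, S.M j (g j) ∧ S.M j (S.nxt i (g j)) := by
  classical
  obtain ⟨i, hi⟩ := S.exists_good
  have hH : ∀ T : Finset L, T.card ≤
      (univ.filter fun o : Option V => ∃ j ∈ T, S.M j o ∧ S.M j (S.nxt i o)).card := by
    intro T
    have hb : ¬ ((S.cov T).card + 1 + (if S.adj T i then 1 else 0) +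
        (if S.adj T (S.f i) then 1 else 0) ≤ T.card + (if i ∈ S.cov T then 1 else 0)) :=
      fun h => hi ⟨T, by convert h⟩
    set N := univ.filter fun o : Option V => ∃ j ∈ T, S.M j o ∧ S.M j (S.nxt i o) with hN
    set E : Finset (Option V) := ((S.cov T).erase i).map ⟨some, Option.some_injective _⟩ with hE
    have hEc : E.card + (if i ∈ S.cov T then 1 else 0) = (S.cov T).card := by
      rw [hE, card_map]
      split_ifs with h
      · exact card_erase_add_one h
      · rw [erase_eq_of_notMem h]; rfl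
    have hEN : E ⊆ N := by
      intro o ho
      obtain ⟨k, hk, rfl⟩ := mem_map.1 ho
      obtain ⟨hki, hk⟩ := mem_erase.1 hk
      obtain ⟨j, hj, m1, m2⟩ := (S.mem_cov).1 hk
      refine mem_filter.2 ⟨mem_univ _, j, hj, m1, ?_⟩
      simpa [nxt, hki] using m2
    have n1 : (none : Option V) ∉ E := by simp [hE]
    have n2 : (some i : Option V) ∉ E := by simp [hE]
    have a1 : S.adj T i → some i ∈ N := by
      rintro ⟨j, hj, m1, m2⟩
      exact mem_filter.2 ⟨mem_univ _, j, hj, m2, by simpa [nxt] using m1⟩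
    have a2 : S.adj T (S.f i) → none ∈ N := by
      rintro ⟨j, hj, m1, m2⟩
      exact mem_filter.2 ⟨mem_univ _, j, hj, m1, by simpa [nxt] using m2⟩
    have c0 := card_le_card hEN
    by_cases h1 : S.adj T i <;> by_cases h2 : S.adj T (S.f i)
    · have : insert none (insert (some i) E) ⊆ N :=
        insert_subset (a2 h2) (insert_subset (a1 h1) hEN)
      have := card_le_card this
      rw [card_insert_of_notMem (by simp [n1]), card_insert_of_notMem n2] at this
      rw [if_pos h1, if_pos h2] at hb
      omega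
    · have := card_le_card (insert_subset (a1 h1) hEN)
      rw [card_insert_of_notMem n2] at this
      rw [if_pos h1, if_neg h2] at hb
      omega
    · have := card_le_card (insert_subset (a2 h2) hEN)
      rw [card_insert_of_notMem n1] at this
      rw [if_neg h1, if_pos h2] at hb
      omega
    · rw [if_neg h1, if_neg h2] at hb
      omega
  obtain ⟨g, hg, hr⟩ := (Fintype.all_card_le_filter_rel_iff_exists_injective
    (fun (j : L) (o : Option V) => S.M j o ∧ S.M j (S.nxt i o))).1 (fun T => by convert hH T)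
  refine ⟨i, g, (Fintype.bijective_iff_injective_and_card g).2 ⟨hg, ?_⟩, hr⟩
  rw [Fintype.card_option, S.card]

end Setup

end Pool.Agent.MP_3b4e7c_co.Arcs

end MrgPart0

-- ======== part 1: formerly Pool.Agent.MP_3b4e7c_co.Geom
section MrgPart1

/-!
Points in convex position in the plane can be listed so that all triples are positively oriented;
a halfplane then cuts out a cyclic interval.
-/

namespace Pool.Agent.MP_3b4e7c_co.Geom

open Finset Relation

/-- twice the signed area -/
def D (a b c : ℝ × ℝ) : ℝ := (b.1 - a.1) * (c.2 - a.2) - (b.2 - a.2) * (c.1 - a.1)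

lemma notconv {Q : Finset (ℝ × ℝ)} (hQ : ConvexIndependent ℝ ((↑) : Q → ℝ × ℝ))
    {x y z w : ℝ × ℝ} (hx : x ∈ Q) (hy : y ∈ Q) (hz : z ∈ Q) (hw : w ∈ Q)
    (n1 : y ≠ x) (n2 : z ≠ x) (n3 : w ≠ x) {a b c : ℝ} (ha : 0 ≤ a) (hb : 0 ≤ b) (hc : 0 ≤ c)
    (hs : a + b + c = 1) (e : x = a • y + b • z + c • w) : False := by
  have h := (convexIndependent_set_iff_notMem_convexHull_sdiff (𝕜 := ℝ)
    (s := (Q : Set (ℝ × ℝ)))).1 hQ x hx
  apply h
  have hcv := convex_convexHull ℝ ((Q : Set (ℝ × ℝ)) \ {x})
  have my : y ∈ convexHull ℝ ((Q : Set (ℝ × ℝ)) \ {x}) := subset_convexHull _ _ ⟨hy, n1⟩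
  have mz : z ∈ convexHull ℝ ((Q : Set (ℝ × ℝ)) \ {x}) := subset_convexHull _ _ ⟨hz, n2⟩
  have mw : w ∈ convexHull ℝ ((Q : Set (ℝ × ℝ)) \ {x}) := subset_convexHull _ _ ⟨hw, n3⟩
  have := hcv.sum_mem (t := (univ : Finset (Fin 3))) (w := ![a, b, c]) (z := ![y, z, w])
    (by intro i _; fin_cases i <;> simpa) (by simp [Fin.sum_univ_three, hs])
    (by intro i _; fin_cases i <;> simpa)
  rw [e]
  convert this using 1
  · rw [← e]
  · simp [Fin.sum_univ_three]

lemma collinear_case {a1 a2 b1 b2 : ℝ} (ha : 0 < a1 ∨ (a1 = 0 ∧ 0 < a2))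
    (hb : 0 < b1 ∨ (b1 = 0 ∧ 0 < b2)) (h : a1 * b2 - a2 * b1 = 0) :
    ∃ t : ℝ, 0 ≤ t ∧ t ≤ 1 ∧ ((a1 = t * b1 ∧ a2 = t * b2) ∨ (b1 = t * a1 ∧ b2 = t * a2)) := by
  rcases ha with ha | ⟨ha, ha2⟩ <;> rcases hb with hb | ⟨hb, hb2⟩
  · rcases le_total a1 b1 with l | l
    · refine ⟨a1 / b1, by positivity, (div_le_one hb).2 l, Or.inl ⟨?_, ?_⟩⟩
      · field_simp
      · field_simp; linarith
    · refine ⟨b1 / a1, by positivity, (div_le_one ha).2 l, Or.inr ⟨?_, ?_⟩⟩
      · field_simp
      · field_simp; linarith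
  · subst hb
    have := mul_pos ha hb2
    linarith
  · subst ha
    have := mul_pos ha2 hb
    linarith
  · subst ha hb
    rcases le_total a2 b2 with l | l
    · refine ⟨a2 / b2, by positivity, (div_le_one hb2).2 l, Or.inl ⟨by simp, ?_⟩⟩
      field_simp
    · refine ⟨b2 / a2, by positivity, (div_le_one ha2).2 l, Or.inr ⟨by simp, ?_⟩⟩
      field_simp

open Classical in
/-- sorting key: the slope seen from `o` -/
noncomputable def key (o w : ℝ × ℝ) : Lex (ℕ × ℝ) :=
  if w = o then toLex (0, 0) else if w.1 = o.1 then toLex (2, 0)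
    else toLex (1, (w.2 - o.2) / (w.1 - o.1))

lemma exists_order (Q : Finset (ℝ × ℝ)) (hQ : ConvexIndependent ℝ ((↑) : Q → ℝ × ℝ))
    (h : ℕ) (hc : Q.card = h) :
    ∃ v : Fin h → ℝ × ℝ, Function.Injective v ∧ (∀ x, x ∈ Q ↔ ∃ i, v i = x) ∧
      ∀ i j k, i < j → j < k → 0 < D (v i) (v j) (v k) := by
  classical
  subst hc
  rcases Q.eq_empty_or_nonempty with rfl | hne
  · exact ⟨fun i => i.elim0, fun i => i.elim0, by simp, fun i => i.elim0⟩
  obtain ⟨o, ho, hmin⟩ := exists_min_image Q (fun w => (toLex w : Lex (ℝ × ℝ))) hne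
  have pos : ∀ w ∈ Q, w ≠ o → 0 < w.1 - o.1 ∨ (w.1 - o.1 = 0 ∧ 0 < w.2 - o.2) := by
    intro w hw hne
    have h1 := hmin w hw
    rw [Prod.Lex.toLex_le_toLex] at h1
    rcases h1 with h1 | ⟨h1, h2⟩
    · left; linarith
    · right
      refine ⟨by linarith, ?_⟩
      rcases h2.lt_or_eq with h2 | h2
      · linarith
      · exact absurd (Prod.ext h1.symm h2.symm) hne
  let u : Fin Q.card → ℝ × ℝ := fun i => (Q.equivFin.symm i : ℝ × ℝ)
  have uinj : Function.Injective u := fun i j e => Q.equivFin.symm.injective (Subtype.ext e)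
  let s := Tuple.sort (fun i => key o (u i))
  have mono : Monotone ((fun i => key o (u i)) ∘ s) := Tuple.monotone_sort _
  let v : Fin Q.card → ℝ × ℝ := fun i => u (s i)
  have vinj : Function.Injective v := uinj.comp s.injective
  have vmem : ∀ i, v i ∈ Q := fun i => (Q.equivFin.symm (s i)).2
  have mono' : ∀ i j, i < j → key o (v i) ≤ key o (v j) := fun i j l => mono l.le
  have A : ∀ i j, i < j → v j ≠ o := by
    intro i j l e
    have h1 := mono' i j l
    have h2 : v i ≠ o := fun e' => l.ne (vinj (e'.trans e.symm))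
    unfold key at h1
    rw [if_pos e, if_neg h2] at h1
    split_ifs at h1 <;> rw [Prod.Lex.toLex_le_toLex] at h1 <;> simp at h1
  have B : ∀ i j, i < j → v i ≠ o → 0 < D o (v i) (v j) := by
    intro i j l hi
    have hj := A i j l
    have pi := pos _ (vmem i) hi
    have pj := pos _ (vmem j) hj
    have h1 := mono' i j l
    have nij : v i ≠ v j := fun e => l.ne (vinj e)
    have ge : 0 ≤ D o (v i) (v j) := by
      unfold key at h1
      rw [if_neg hi, if_neg hj] at h1
      unfold D
      split_ifs at h1 with c1 c2 c2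
      · rw [c1, c2]; simp
      · rw [Prod.Lex.toLex_le_toLex] at h1; simp at h1
      · rcases pi with pi | pi
        · rcases pj with pj | pj
          · rw [c2] at pj; simp at pj
          · rw [pj.1]; have := mul_pos pi pj.2; linarith
        · exact absurd (by linarith [pi.1]) c1
      · rw [Prod.Lex.toLex_le_toLex] at h1
        simp only [lt_self_iff_false, true_and, false_or] at h1
        have p1 : 0 < (v i).1 - o.1 := by
          rcases pi with pi | pi
          · exact pi
          · exact absurd (by linarith [pi.1]) c1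
        have p2 : 0 < (v j).1 - o.1 := by
          rcases pj with pj | pj
          · exact pj
          · exact absurd (by linarith [pj.1]) c2
        rw [div_le_div_iff₀ p1 p2] at h1
        linarith
    rcases ge.lt_or_eq with g | g
    · exact g
    · exfalso
      obtain ⟨t, t0, t1, ht⟩ := collinear_case pi pj (by unfold D at g; linarith)
      rcases ht with ⟨e1, e2⟩ | ⟨e1, e2⟩
      · refine notconv hQ (vmem i) ho (vmem j) ho hi.symm nij.symm hi.symm
          (a := 1 - t) (b := t) (c := 0) (by linarith) t0 le_rfl (by ring) ?_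
        ext <;> simp <;> linarith
      · refine notconv hQ (vmem j) ho (vmem i) ho hj.symm nij hj.symm
          (a := 1 - t) (b := t) (c := 0) (by linarith) t0 le_rfl (by ring) ?_
        ext <;> simp <;> linarith
  refine ⟨v, vinj, ?_, ?_⟩
  · intro x
    constructor
    · intro hx
      exact ⟨s.symm (Q.equivFin ⟨x, hx⟩), by simp [v, u]⟩
    · rintro ⟨i, rfl⟩
      exact vmem i
  · intro i j k l1 l2
    by_cases hi : v i = o
    · rw [hi]
      exact B j k l2 (A i j l1)
    · have d1 := B i j l1 hi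
      have d2 := B j k l2 (A i j l1)
      have d3 := B i k (l1.trans l2) hi
      by_contra hneg
      push Not at hneg
      refine notconv hQ (vmem j) (vmem i) (vmem k) ho (fun e => l1.ne (vinj e))
        (fun e => l2.ne (vinj e).symm) (A i j l1).symm
        (a := D o (v j) (v k) / D o (v i) (v k)) (b := D o (v i) (v j) / D o (v i) (v k))
        (c := - D (v i) (v j) (v k) / D o (v i) (v k)) (by positivity) (by positivity)
        (div_nonneg (by linarith) d3.le) ?_ ?_
      · field_simp
        unfold D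
        ring
      · ext
        · simp only [Prod.fst_add, Prod.smul_fst, smul_eq_mul]
          field_simp
          unfold D
          ring
        · simp only [Prod.snd_add, Prod.smul_snd, smul_eq_mul]
          field_simp
          unfold D
          ring

lemma no_alt {H : Set (ℝ × ℝ)}
    (hH : ∃ a b c : ℝ, H = {p | c ≤ a * p.1 + b * p.2} ∨ H = {p | c < a * p.1 + b * p.2})
    {w x y z : ℝ × ℝ} (d1 : 0 < D x y z) (d2 : 0 < D w y z) (d3 : 0 < D w x z)
    (d4 : 0 < D w x y) :
    ¬ (w ∈ H ∧ y ∈ H ∧ x ∉ H ∧ z ∉ H) ∧ ¬ (x ∈ H ∧ z ∈ H ∧ w ∉ H ∧ y ∉ H) := by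
  obtain ⟨a, b, c, hH⟩ := hH
  have id : D x y z * (a * w.1 + b * w.2 - c) + D w x z * (a * y.1 + b * y.2 - c) =
      D w y z * (a * x.1 + b * x.2 - c) + D w x y * (a * z.1 + b * z.2 - c) := by
    unfold D; ring
  rcases hH with rfl | rfl
  · simp only [Set.mem_ofPred_eq, not_le]
    constructor
    · rintro ⟨h1, h2, h3, h4⟩
      nlinarith [mul_nonneg d1.le (sub_nonneg.2 h1), mul_nonneg d3.le (sub_nonneg.2 h2),
        mul_pos d2 (sub_pos.2 h3), mul_pos d4 (sub_pos.2 h4)]
    · rintro ⟨h1, h2, h3, h4⟩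
      nlinarith [mul_nonneg d2.le (sub_nonneg.2 h1), mul_nonneg d4.le (sub_nonneg.2 h2),
        mul_pos d1 (sub_pos.2 h3), mul_pos d3 (sub_pos.2 h4)]
  · simp only [Set.mem_ofPred_eq, not_lt]
    constructor
    · rintro ⟨h1, h2, h3, h4⟩
      nlinarith [mul_pos d1 (sub_pos.2 h1), mul_pos d3 (sub_pos.2 h2),
        mul_nonneg d2.le (sub_nonneg.2 h3), mul_nonneg d4.le (sub_nonneg.2 h4)]
    · rintro ⟨h1, h2, h3, h4⟩
      nlinarith [mul_pos d2 (sub_pos.2 h1), mul_pos d4 (sub_pos.2 h2),
        mul_nonneg d1.le (sub_nonneg.2 h3), mul_nonneg d3.le (sub_nonneg.2 h4)]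

lemma walk {m : ℕ} (A : Fin (m + 1) → Prop) (x : Fin (m + 1)) (k : ℕ)
    (hA : ∀ t ≤ k, A (Fin.ofNat (m + 1) (x.val + t))) :
    ReflTransGen (fun u w => A u ∧ A w ∧ w = u + 1) x (Fin.ofNat (m + 1) (x.val + k)) := by
  induction k with
  | zero =>
    have : Fin.ofNat (m + 1) (x.val + 0) = x := by
      ext; simp
    rw [this]
  | succ k ih =>
    refine (ih fun t ht => hA t (by omega)).tail ⟨hA k (by omega), hA (k + 1) le_rfl, ?_⟩
    ext
    simp [Fin.val_add, ← add_assoc]

lemma arc_of_no_alt {m : ℕ} (A : Fin (m + 1) → Prop)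
    (hno : ∀ a b c d : Fin (m + 1), a < b → b < c → c < d →
      ¬ (A a ∧ A c ∧ ¬ A b ∧ ¬ A d) ∧ ¬ (A b ∧ A d ∧ ¬ A a ∧ ¬ A c))
    (x y : Fin (m + 1)) (hx : A x) (hy : A y) :
    ReflTransGen (fun u w => A u ∧ A w ∧ w = u + 1) x y ∨
      ReflTransGen (fun u w => A u ∧ A w ∧ w = u + 1) y x := by
  wlog l : x ≤ y generalizing x y
  · exact (this y x hy hx (le_of_not_ge l)).symm
  have hxl := x.isLt
  have hyl := y.isLt
  have l' : x.val ≤ y.val := l
  by_cases hall : ∀ z, x < z → z < y → A z
  · left
    have := walk A x (y.val - x.val) (by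
      intro t ht
      have hv : (Fin.ofNat (m + 1) (x.val + t)).val = x.val + t := by
        simp [Nat.mod_eq_of_lt (show x.val + t < m + 1 by omega)]
      by_cases h0 : t = 0
      · rwa [show Fin.ofNat (m + 1) (x.val + t) = x from Fin.ext (by omega)]
      · by_cases h1 : t = y.val - x.val
        · rwa [show Fin.ofNat (m + 1) (x.val + t) = y from Fin.ext (by omega)]
        · exact hall _ (Fin.lt_def.2 (by omega)) (Fin.lt_def.2 (by omega)))
    rwa [show Fin.ofNat (m + 1) (x.val + (y.val - x.val)) = y from Fin.ext (by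
      simp [Nat.add_sub_cancel' l'])] at this
  · right
    push Not at hall
    obtain ⟨z, z1, z2, hz⟩ := hall
    have up : ∀ w, y ≤ w → A w := by
      intro w hw
      rcases hw.lt_or_eq with hw | rfl
      · by_contra h
        exact (hno x z y w z1 z2 hw).1 ⟨hx, hy, hz, h⟩
      · exact hy
    have dn : ∀ w, w ≤ x → A w := by
      intro w hw
      rcases hw.lt_or_eq with hw | rfl
      · by_contra h
        exact (hno w x z y hw z1 z2).2 ⟨hx, hy, h, hz⟩
      · exact hx
    have := walk A y (m + 1 - y.val + x.val) (by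
      intro t ht
      by_cases h0 : y.val + t < m + 1
      · apply up
        rw [Fin.le_def]
        simp [Nat.mod_eq_of_lt h0]
      · apply dn
        rw [Fin.le_def]
        have : y.val + t = (y.val + t - (m + 1)) + (m + 1) := by omega
        rw [Fin.val_ofNat, this, Nat.add_mod_right, Nat.mod_eq_of_lt (by omega)]
        omega)
    rwa [show Fin.ofNat (m + 1) (y.val + (m + 1 - y.val + x.val)) = x from Fin.ext (by
      have : y.val + (m + 1 - y.val + x.val) = x.val + (m + 1) := by omega
      rw [Fin.val_ofNat, this, Nat.add_mod_right, Nat.mod_eq_of_lt hxl])] at this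

end Pool.Agent.MP_3b4e7c_co.Geom

end MrgPart1

-- marker of a merged file
example : 731051 + 174526 = 731051 + 174526 := rfl
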